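import Pool.Agent.helper92.ISO.SpecC

/-!
# Row iso:GRD (MP_069684_lc): averaging and greedy choice
-/

set_option autoImplicit false

namespace Pool.Agent.ISO

open Finset

lemma GRD_bern (k : ℕ) : ∀ n : ℕ, k ^ (n + 1) + (n + 1) * k ^ n ≤ (k + 1) ^ (n + 1) := by
  intro n
  induction n with
  | zero => simp
  | succ n ih =>
    calc k ^ (n + 1 + 1) + (n + 1 + 1) * k ^ (n + 1) ≤ (k + 1) * (k ^ (n + 1) + (n + 1) * k ^ n) := by
          have e : (k + 1) * (k ^ (n + 1) + (n + 1) * k ^ n) =
            k ^ (n + 1 + 1) + (n + 1 + 1) * k ^ (n + 1) + (n + 1) * k ^ n := by ring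
          rw [e]
          exact Nat.le_add_right _ _
      _ ≤ (k + 1) * (k + 1) ^ (n + 1) := Nat.mul_le_mul_left _ ih
      _ = (k + 1) ^ (n + 1 + 1) := by ring

lemma GRD_two (M : ℕ) (hM : 1 ≤ M) : 2 * (M - 1) ^ M ≤ M ^ M := by
  obtain ⟨k, rfl⟩ := Nat.exists_eq_add_of_le' hM
  have h := GRD_bern k k
  have e : k + 1 - 1 = k := by omega
  rw [e]
  refine le_trans ?_ h
  have : k ^ (k + 1) ≤ (k + 1) * k ^ k := by
    rw [pow_succ, mul_comm]
    exact Nat.mul_le_mul_right _ (Nat.le_succ k)
  omega

lemma GRD_num (M n : ℕ) (hM : 1 ≤ M) : (M - 1) ^ (M * n + 1) * 2 ^ n < M ^ (M * n + 1) := by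
  have h1 : 2 ^ n * (M - 1) ^ (M * n) ≤ M ^ (M * n) := by
    have := Nat.pow_le_pow_left (GRD_two M hM) n
    rwa [mul_pow, ← pow_mul, ← pow_mul] at this
  have h2 : 0 < M ^ (M * n) := pow_pos hM _
  calc (M - 1) ^ (M * n + 1) * 2 ^ n = (2 ^ n * (M - 1) ^ (M * n)) * (M - 1) := by ring
    _ ≤ M ^ (M * n) * (M - 1) := Nat.mul_le_mul_right _ h1
    _ < M ^ (M * n) * M := Nat.mul_lt_mul_of_pos_left (by omega) h2
    _ = M ^ (M * n + 1) := by ring

lemma GRD_swap {α : Type} [Fintype α] [DecidableEq α] {M : ℕ} (test : Fin M → (Fin M → α) → α → Bool) (U : Finset α)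
    (hup : ∀ e X x y, test e (Function.update X e y) x = test e X x) (e : Fin M) :
    U.card * ((Fintype.piFinset fun _ : Fin M => U).filter fun X => test e X (X e) = true).card =
      ∑ X ∈ Fintype.piFinset fun _ : Fin M => U, (U.filter fun x => test e X x = true).card := by
  classical
  have e1 : ∑ X ∈ Fintype.piFinset fun _ : Fin M => U, (U.filter fun x => test e X x = true).card =
      (((Fintype.piFinset fun _ : Fin M => U) ×ˢ U).filter fun z => test e z.1 z.2 = true).card := by
    rw [Finset.card_filter, Finset.sum_product]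
    refine Finset.sum_congr rfl fun X _ => ?_
    rw [Finset.card_filter]
  rw [e1, mul_comm, ← Finset.card_product]
  refine Finset.card_bij' (fun z _ => (Function.update z.1 e z.2, z.1 e)) (fun z _ => (Function.update z.1 e z.2, z.1 e)) ?_ ?_ ?_ ?_
  · rintro ⟨X, y⟩ hz
    rw [Finset.mem_product, Finset.mem_filter, Fintype.mem_piFinset] at hz
    rw [Finset.mem_filter, Finset.mem_product, Fintype.mem_piFinset]
    refine ⟨⟨fun a => ?_, hz.1.1 e⟩, ?_⟩
    · by_cases h : a = e
      · subst h
        simpa using hz.2
      · simpa [Function.update_of_ne h] using hz.1.1 a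
    · change test e (Function.update X e y) (X e) = true
      rw [hup]
      exact hz.1.2
  · rintro ⟨X, y⟩ hz
    rw [Finset.mem_filter, Finset.mem_product, Fintype.mem_piFinset] at hz
    rw [Finset.mem_product, Finset.mem_filter, Fintype.mem_piFinset]
    refine ⟨⟨fun a => ?_, ?_⟩, hz.1.1 e⟩
    · by_cases h : a = e
      · subst h
        simpa using hz.1.2
      · simpa [Function.update_of_ne h] using hz.1.1 a
    · change test e (Function.update X e y) (Function.update X e y e) = true
      rw [hup, Function.update_self]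
      exact hz.2
  · rintro ⟨X, y⟩ _
    simp
  · rintro ⟨X, y⟩ _
    simp

lemma GRD_step {α : Type} [Fintype α] [DecidableEq α] {M : ℕ} (test : Fin M → (Fin M → α) → α → Bool) (U : Finset α) (hU : U.Nonempty)
    (hup : ∀ e X x y, test e (Function.update X e y) x = test e X x)
    (hex : ∀ X : Fin M → α, (∀ e, X e ∈ U) → ∃ e, test e X (X e) = true) :
    ∃ (e : Fin M) (X : Fin M → α), (∀ e', X e' ∈ U) ∧ U.card ≤ M * (U.filter fun x => test e X x = true).card := by
  classical
  by_contra hno
  push Not at hno
  set S := Fintype.piFinset fun _ : Fin M => U with hS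
  have hSne : S.Nonempty := by
    obtain ⟨u, hu⟩ := hU
    exact ⟨fun _ => u, by rw [hS, Fintype.mem_piFinset]; exact fun _ => hu⟩
  have h1 : ∀ e : Fin M, M * (S.filter fun X => test e X (X e) = true).card < S.card := by
    intro e
    have h2 := GRD_swap test U hup e
    rw [← hS] at h2
    have h3 : ∑ X ∈ S, M * (U.filter fun x => test e X x = true).card < ∑ X ∈ S, U.card := by
      refine Finset.sum_lt_sum_of_nonempty hSne fun X hX => hno e X ?_
      rw [hS, Fintype.mem_piFinset] at hX
      exact hX
    rw [← Finset.mul_sum, ← h2, Finset.sum_const, smul_eq_mul] at h3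
    have h4 : U.card * (M * (S.filter fun X => test e X (X e) = true).card) < U.card * S.card := by
      calc U.card * (M * (S.filter fun X => test e X (X e) = true).card) =
          M * (U.card * (S.filter fun X => test e X (X e) = true).card) := by ring
        _ < S.card * U.card := h3
        _ = U.card * S.card := mul_comm _ _
    exact Nat.lt_of_mul_lt_mul_left h4
  have h5 : S.card ≤ ∑ e : Fin M, (S.filter fun X => test e X (X e) = true).card := by
    have h6 : S ⊆ Finset.univ.biUnion fun e : Fin M => S.filter fun X => test e X (X e) = true := by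
      intro X hX
      have hX' := hX
      rw [hS, Fintype.mem_piFinset] at hX'
      obtain ⟨e, he⟩ := hex X hX'
      rw [Finset.mem_biUnion]
      exact ⟨e, Finset.mem_univ _, by rw [Finset.mem_filter]; exact ⟨hX, he⟩⟩
    exact (Finset.card_le_card h6).trans Finset.card_biUnion_le
  have hM : (Finset.univ : Finset (Fin M)).Nonempty := by
    obtain ⟨X, hX⟩ := hSne
    rw [hS, Fintype.mem_piFinset] at hX
    obtain ⟨e, -⟩ := hex X hX
    exact ⟨e, Finset.mem_univ _⟩
  have h7 : ∑ e : Fin M, M * (S.filter fun X => test e X (X e) = true).card < ∑ _e : Fin M, S.card :=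
    Finset.sum_lt_sum_of_nonempty hM fun e _ => h1 e
  rw [← Finset.mul_sum, Finset.sum_const, smul_eq_mul, Finset.card_univ, Fintype.card_fin] at h7
  exact absurd (Nat.lt_of_mul_lt_mul_left h7) (not_lt.2 h5)

lemma GRD_greedy {α : Type} [Fintype α] [DecidableEq α] {M : ℕ} (hM : 1 ≤ M) (test : Fin M → (Fin M → α) → α → Bool) (U : Finset α)
    (hU : U.Nonempty) (hup : ∀ e X x y, test e (Function.update X e y) x = test e X x)
    (hex : ∀ X : Fin M → α, (∀ e, X e ∈ U) → ∃ e, test e X (X e) = true) :
    ∀ L : ℕ, ∃ (e : Fin L → Fin M) (X : Fin L → Fin M → α), (∀ l e', X l e' ∈ U) ∧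
      M ^ L * (U.filter fun x => ∀ l, test (e l) (X l) x = false).card ≤ (M - 1) ^ L * U.card := by
  classical
  intro L
  induction L with
  | zero =>
    refine ⟨fun l => l.elim0, fun l => l.elim0, fun l => l.elim0, ?_⟩
    rw [pow_zero, pow_zero, one_mul, one_mul]
    exact Finset.card_filter_le _ _
  | succ L ih =>
    obtain ⟨e, X, hX, hc⟩ := ih
    set V := U.filter fun x => ∀ l, test (e l) (X l) x = false with hV
    rcases V.eq_empty_or_nonempty with hVe | hVn
    · obtain ⟨u, hu⟩ := hU
      refine ⟨Fin.snoc e ⟨0, hM⟩, Fin.snoc X fun _ => u, ?_, ?_⟩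
      · intro l e'
        refine Fin.lastCases ?_ (fun i => ?_) l
        · simpa using hu
        · simpa using hX i e'
      · have h0 : (U.filter fun x => ∀ l : Fin (L + 1), test ((Fin.snoc e ⟨0, hM⟩ : Fin (L + 1) → Fin M) l)
            ((Fin.snoc X (fun _ => u) : Fin (L + 1) → Fin M → α) l) x = false).card = 0 := by
          rw [Finset.card_eq_zero, Finset.eq_empty_iff_forall_notMem]
          intro x hx
          rw [Finset.mem_filter] at hx
          have : x ∈ V := by
            rw [hV, Finset.mem_filter]
            refine ⟨hx.1, fun l => ?_⟩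
            have := hx.2 l.castSucc
            simpa using this
          rw [hVe] at this
          exact absurd this (Finset.notMem_empty _)
        rw [h0, mul_zero]
        exact Nat.zero_le _
    · have hVU : V ⊆ U := Finset.filter_subset _ _
      obtain ⟨e0, X0, hX0, hc0⟩ := GRD_step test V hVn hup fun X hX => hex X fun e => hVU (hX e)
      refine ⟨Fin.snoc e e0, Fin.snoc X X0, ?_, ?_⟩
      · intro l e'
        refine Fin.lastCases ?_ (fun i => ?_) l
        · simpa using hVU (hX0 e')
        · simpa using hX i e'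
      · have h1 : (U.filter fun x => ∀ l : Fin (L + 1), test ((Fin.snoc e e0 : Fin (L + 1) → Fin M) l)
            ((Fin.snoc X X0 : Fin (L + 1) → Fin M → α) l) x = false) ⊆ V.filter fun x => ¬ test e0 X0 x = true := by
          intro x hx
          rw [Finset.mem_filter] at hx
          rw [Finset.mem_filter, hV, Finset.mem_filter]
          refine ⟨⟨hx.1, fun l => ?_⟩, ?_⟩
          · have := hx.2 l.castSucc
            simpa using this
          · have := hx.2 (Fin.last L)
            simpa using this
        have h2 := Finset.card_le_card h1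
        have h3 : (V.filter fun x => test e0 X0 x = true).card + (V.filter fun x => ¬ test e0 X0 x = true).card = V.card :=
          Finset.card_filter_add_card_filter_not _
        have h4 : M * (V.filter fun x => ¬ test e0 X0 x = true).card ≤ (M - 1) * V.card := by
          obtain ⟨k, rfl⟩ := Nat.exists_eq_add_of_le' hM
          have e5 : k + 1 - 1 = k := by omega
          rw [e5]
          have h6 : (k + 1) * V.card = (k + 1) * (V.filter fun x => test e0 X0 x = true).card +
            (k + 1) * (V.filter fun x => ¬ test e0 X0 x = true).card := by rw [← h3]; ring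
          have h7 : (k + 1) * V.card = k * V.card + V.card := by ring
          omega
        calc M ^ (L + 1) * (U.filter fun x => ∀ l : Fin (L + 1), test ((Fin.snoc e e0 : Fin (L + 1) → Fin M) l)
            ((Fin.snoc X X0 : Fin (L + 1) → Fin M → α) l) x = false).card
            ≤ M ^ (L + 1) * (V.filter fun x => ¬ test e0 X0 x = true).card := Nat.mul_le_mul_left _ h2
          _ = M ^ L * (M * (V.filter fun x => ¬ test e0 X0 x = true).card) := by ring
          _ ≤ M ^ L * ((M - 1) * V.card) := Nat.mul_le_mul_left _ h4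
          _ = (M - 1) * (M ^ L * V.card) := by ring
          _ ≤ (M - 1) * ((M - 1) ^ L * U.card) := Nat.mul_le_mul_left _ hc
          _ = (M - 1) ^ (L + 1) * U.card := by ring

theorem GRD_proof : GRD_stmt := by
  intro α _ _ M n test U hM hU hcard hup hex
  classical
  obtain ⟨e, X, hX, hc⟩ := GRD_greedy hM test U hU hup hex (M * n + 1)
  refine ⟨e, X, hX, fun x hx => ?_⟩
  by_contra hno
  push Not at hno
  have hmem : x ∈ U.filter fun x => ∀ l, test (e l) (X l) x = false := by
    rw [Finset.mem_filter]
    exact ⟨hx, fun l => by simpa using hno l⟩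
  have h1 : 1 ≤ (U.filter fun x => ∀ l, test (e l) (X l) x = false).card := Finset.card_pos.2 ⟨x, hmem⟩
  have h2 : M ^ (M * n + 1) ≤ (M - 1) ^ (M * n + 1) * 2 ^ n :=
    calc M ^ (M * n + 1) = M ^ (M * n + 1) * 1 := (mul_one _).symm
      _ ≤ M ^ (M * n + 1) * (U.filter fun x => ∀ l, test (e l) (X l) x = false).card := Nat.mul_le_mul_left _ h1
      _ ≤ (M - 1) ^ (M * n + 1) * U.card := hc
      _ ≤ (M - 1) ^ (M * n + 1) * 2 ^ n := Nat.mul_le_mul_left _ hcard
  exact absurd (GRD_num M n hM) (not_lt.2 h2)

end Pool.Agent.ISO
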